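import Pool.Agent.W900.PM.Orc

/-!
# One change per block, long strings
-/

set_option autoImplicit false

namespace Pool.Agent.W900.PE

open Filter Pool.Agent.NPC Pool.Agent.H620R2.Gauge
open Pool.Agent.W900.BC (Loc Psi Psi_eq vl Noise)
open Pool.Agent.W900.RB (reg reg_inj length_reg)
open Pool.Agent.W900.CH (Close finite_diff)
open Pool.Agent.W900.PM (par_flip)

/-- the string number `p` of the block number `n` -/
def pos (n p : ℕ) : List Bool := reg (2 ^ (n * n)) (str p)

theorem pos_inj {n p n' p' : ℕ} (h : pos n p = pos n' p') : n = n' ∧ p = p' := by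
  obtain ⟨h1, h2⟩ := reg_inj h
  exact ⟨Nat.mul_self_inj.1 (Nat.pow_right_injective (le_refl 2) h1), str_injective h2⟩

theorem pos_len (n p : ℕ) : 2 ^ (n * n) < (pos n p).length := by
  unfold pos
  rw [length_reg]
  omega

/-- the sum of the indices of the ones of the block number `n`: the digit number `i` -/
def syn (A : Oracle) (n i : ℕ) : Bool :=
  PM.par (2 ^ (2 * n + 1)) (fun p => A (pos n p) && (str p).getD i false)

/-- the index of the string which is changed in the block number `n` -/
def pst (O : Oracle) (T : ℕ → ℕ → Oracle → Bool) (n : ℕ) (A : Oracle) : ℕ :=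
  idx (List.ofFn (fun i : Fin (2 * n) => xor (syn O n i) (T n i A)))

theorem pst_lt (O : Oracle) (T : ℕ → ℕ → Oracle → Bool) (n : ℕ) (A : Oracle) :
    pst O T n A < 2 ^ (2 * n + 1) := by
  have h := idx_lt (List.ofFn (fun i : Fin (2 * n) => xor (syn O n i) (T n i A)))
  rw [List.length_ofFn] at h
  unfold pst
  omega

open Classical in
/-- **One change in every block with a number in `Λ`.** -/
theorem exists_orc (Λ : ℕ → Prop) (T : ℕ → ℕ → Oracle → Bool)
    (hT : ∀ n i A A', (∀ z : List Bool, z.length ≤ 2 ^ (n * n) → A z = A' z) → T n i A = T n i A')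
    (O : Oracle) : ∃ A : Oracle, (∀ z, A z = if ∃ n, Λ n ∧ z = pos n (pst O T n A) then
      !(O z) else O z) ∧ ∀ n, Λ n → ∀ i < 2 * n, syn A n i = T n i A := by
  have hpst : ∀ n A A', (∀ z : List Bool, z.length ≤ 2 ^ (n * n) → A z = A' z) →
      pst O T n A = pst O T n A' := by
    intro n A A' h
    unfold pst
    congr 2
    funext i
    rw [hT n i A A' h]
  set adv : List Bool → Oracle → Bool := fun z A =>
    if ∃ n, Λ n ∧ z = pos n (pst O T n A) then !(O z) else O z with hadv
  have hloc : Loc adv := by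
    intro z A A' h
    have h1 : ∀ B B' : Oracle, (∀ z' : List Bool, z'.length < z.length → B z' = B' z') →
        (∃ n, Λ n ∧ z = pos n (pst O T n B)) → ∃ n, Λ n ∧ z = pos n (pst O T n B') := by
      rintro B B' hB ⟨n, hn, hz⟩
      refine ⟨n, hn, ?_⟩
      rw [← hpst n B B' fun z' hz' => hB z' ?_]
      · exact hz
      · rw [hz]
        exact lt_of_le_of_lt hz' (pos_len _ _)
    have h2 : (∃ n, Λ n ∧ z = pos n (pst O T n A)) ↔ ∃ n, Λ n ∧ z = pos n (pst O T n A') :=
      ⟨h1 A A' h, h1 A' A fun z' hz' => (h z' hz').symm⟩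
    rw [hadv]
    dsimp only
    simp only [h2]
  have hA : ∀ z, Psi adv (fun _ => (true, false)) z =
      if ∃ n, Λ n ∧ z = pos n (pst O T n (Psi adv (fun _ => (true, false)))) then
        !(O z) else O z := by
    intro z
    rw [Psi_eq hloc]
    rfl
  refine ⟨_, hA, fun n hn i hi => ?_⟩
  set A := Psi adv (fun _ => (true, false)) with hAd
  have h1 : syn A n i = xor (syn O n i) ((str (pst O T n A)).getD i false) := by
    unfold syn
    apply par_flip (pst_lt O T n A)
    · intro p _ hp
      rw [hA, if_neg]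
      rintro ⟨n', _, h2⟩
      obtain ⟨h3, h4⟩ := pos_inj h2
      subst h3
      exact hp h4
    · rw [hA, if_pos ⟨n, hn, rfl⟩]
      cases O (pos n (pst O T n A)) <;> cases (str (pst O T n A)).getD i false <;> rfl
  rw [h1]
  have h2 : (str (pst O T n A)).getD i false = xor (syn O n i) (T n i A) := by
    unfold pst
    rw [str_idx, List.getD_eq_getElem _ _ (by rw [List.length_ofFn]; exact hi),
      List.getElem_ofFn]
  rw [h2]
  cases syn O n i <;> cases T n i A <;> rfl

theorem dist_orc {Λ : ℕ → Prop} {T : ℕ → ℕ → Oracle → Bool} {O A : Oracle} {nn : ℕ → ℕ}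
    (hΛ : ∀ n, Λ n ↔ ∃ j, n = nn j) (hnn : StrictMono nn)
    (hA : ∀ z, (¬ ∃ n, Λ n ∧ z = pos n (pst O T n A)) → A z = O z) {N J : ℕ} (hJ : N ≤ nn J) :
    CH.dist O A N ≤ J := by
  classical
  have h1 : {x : List Bool | x.length ≤ N ∧ A x ≠ O x} ⊆
      ((Finset.range J).image (fun j => pos (nn j) (pst O T (nn j) A)) :
        Set (List Bool)) := by
    rintro z ⟨h2, h3⟩
    have h4 : ∃ n, Λ n ∧ z = pos n (pst O T n A) := by
      by_contra hc
      exact h3 (hA z hc)
    obtain ⟨n, hn, rfl⟩ := h4
    obtain ⟨j, rfl⟩ := (hΛ n).1 hn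
    rw [Finset.mem_coe, Finset.mem_image]
    refine ⟨j, ?_, rfl⟩
    rw [Finset.mem_range]
    have h5 := pos_len (nn j) (pst O T (nn j) A)
    have h6 : nn j * nn j < 2 ^ (nn j * nn j) := Nat.lt_two_pow_self
    have h8 : nn j ≤ nn j * nn j := Nat.le_mul_self _
    have h7 : nn j < nn J := by omega
    exact hnn.lt_iff_lt.1 h7
  unfold CH.dist
  calc _ ≤ ((Finset.range J).image (fun j => pos (nn j) (pst O T (nn j) A)) :
        Set (List Bool)).ncard := by
        exact Set.ncard_le_ncard h1 (Finset.finite_toSet _)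
    _ ≤ J := by
        rw [Set.ncard_coe_finset]
        refine Finset.card_image_le.trans ?_
        rw [Finset.card_range]

end Pool.Agent.W900.PE
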