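import Pool.Agent.W900.PM.Comp
import Pool.Agent.W900.PE.Orc

/-!
# The bets are computable, with long strings
-/

set_option autoImplicit false

namespace Pool.Agent.W900.PE

open Finset Filter Pool.Agent.NPC Pool.Agent.H620R2.Gauge
open Pool.Agent.W911.AL (poly_pow2)
open Pool.Agent.W911.KM
open Pool.Agent.W900.RB (reg)
open Pool.Agent.H622R2 (poly_pairBits)
open Pool.Agent.W900.PM (off off_block DD TT numW DD_avg DD_eq DD_large TT_nonneg TT_far
  poly_str poly_off poly_numW numW_congr pow_len_le BB aL poly_aL par_congr)

attribute [local irreducible] unpair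

/-- the string number `p` of the block number `n`, if it is not too long -/
def posc (m n p : ℕ) : List Bool := List.replicate (min (2 ^ (n * n)) m) true ++ false :: str p

theorem posc_eq {m n p : ℕ} (h : 2 ^ (n * n) ≤ m) : posc m n p = pos n p := by
  unfold posc pos reg
  rw [min_eq_left h]

theorem poly_posc {α : Type} [TEnc α] {j W U : α → ℕ} {p : α → ℕ} (hj : Poly j) (hW : UPoly W)
    (hU : UPoly U) (hp : Poly p) :
    Poly (fun a => posc (U a) (str (min (j a) (W a))).length (p a)) := by
  unfold posc
  have h1 : Poly (fun a => min (j a) (W a)) := Poly.min hj hW.toPoly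
  have h3 : Poly (fun a => 2 ^ ((str (min (j a) (W a))).length *
      (str (min (j a) (W a))).length)) :=
    poly_pow2 (UPoly.mul (UPoly.length (poly_str h1)) (UPoly.length (poly_str h1)))
  have h2 : UPoly (fun a => min (2 ^ ((str (min (j a) (W a))).length *
      (str (min (j a) (W a))).length)) (U a)) :=
    UPoly.of_le (Poly.min h3 hU.toPoly) hU fun a => min_le_right _ _
  exact Poly.append (Pool.Agent.H628R3.RO.p_replicate h2 true)
    (Poly.cons (NPC.Poly.const false) (poly_str hp))

/-- the predictions -/
def aS (A : Oracle) (j : ℕ) : Bool := syn A (str j).length (off j)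

theorem aL_eq (A : Oracle) {U W j : ℕ} (hj : j < W)
    (hU : ∀ j < W, 2 ^ ((str j).length * (str j).length) ≤ U) :
    aL W (BB W) (((List.range (W * BB W)).map (fun u =>
      posc U (str (min (u / BB W) W)).length (u % BB W))).map A) j = aS A j := by
  unfold aL aS syn
  rw [min_eq_left hj.le]
  apply par_congr
  intro p hp
  have hB : 2 ^ (2 * (str j).length + 1) ≤ BB W := by
    have h3 := pow_len_le j
    have h5 : 2 ^ (str j).length ≤ W + 1 := by omega
    calc 2 ^ (2 * (str j).length + 1)
        = 2 * (2 ^ (str j).length * 2 ^ (str j).length) := by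
          rw [pow_succ, two_mul, pow_add]
          ring
      _ ≤ 2 * ((W + 1) * (W + 1)) := Nat.mul_le_mul_left _ (Nat.mul_le_mul h5 h5)
  have hpB : p < BB W := by omega
  have hB0 : 0 < BB W := by omega
  have h1 : j * BB W + p < W * BB W := by
    calc j * BB W + p < j * BB W + BB W := by omega
      _ = (j + 1) * BB W := by ring
      _ ≤ W * BB W := Nat.mul_le_mul_right _ hj
  congr 1
  rw [List.map_map, List.getD_eq_getElem?_getD, List.getElem?_map, List.getElem?_range h1]
  simp only [Option.map_some, Option.getD_some, Function.comp]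
  have h2 : (j * BB W + p) / BB W = j := by
    rw [mul_comm, Nat.mul_add_div hB0, Nat.div_eq_of_lt hpB, add_zero]
  have h3 : (j * BB W + p) % BB W = p := by
    rw [mul_comm, Nat.mul_add_mod, Nat.mod_eq_of_lt hpB]
  rw [h2, h3, min_eq_left hj.le, posc_eq (hU j hj)]

theorem nullQP_intro {A : Oracle} {X : Set (Set (List Bool))} {d : ℕ → List Bool → ℝ}
    (hd : IsNullCover d X) {G : List Bool → List Bool} (hG : IsFP A G)
    (h : ∀ k r w, |dy (G (qpad 2 (W911.KM.inp k r w))) - d k w| ≤ 1 / 2 ^ r) : NullQP A 2 X :=
  ⟨d, hd, fun z => G (qpad 2 z), ⟨G, hG, fun z => rfl⟩, h⟩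

/-- **A null cover from the sums of the indices.** -/
theorem null_of_syn (A : Oracle) (X : Set (Set (List Bool)))
    (h : ∀ L ∈ X, ∀ N, ∃ n ≥ N, ∀ i < 2 * n,
      (syn A n i = true ↔ str (2 ^ n - 1 + i) ∈ L)) : NullQP A 2 X := by
  classical
  have hD0 : ∀ w, 0 ≤ DD (aS A) w := by
    intro w
    unfold DD
    have h1 : 0 ≤ ∑ n ∈ range (w.length + 1), TT (aS A) n w :=
      Finset.sum_nonneg fun n _ => TT_nonneg _ _ _
    positivity
  -- the computation
  have hU : UPoly (fun y : List Bool => (unpair y).1.length) := UPoly.length (Poly.fst poly_unpair)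
  have hz : Poly (fun y : List Bool => (unpair y).2) := Poly.snd poly_unpair
  have hw : Poly (fun y : List Bool => (unpair (unpair (unpair y).2).2).2) :=
    (Poly.snd (poly_unpair.comp (Poly.snd poly_unpair))).comp hz
  have hW : UPoly (fun y : List Bool => (unpair (unpair (unpair y).2).2).2.length) :=
    UPoly.length hw
  have hBU : UPoly (fun y : List Bool => BB (unpair (unpair (unpair y).2).2).2.length) := by
    unfold BB
    exact UPoly.mul (UPoly.const 2) (UPoly.mul (UPoly.add hW (UPoly.const 1))
      (UPoly.add hW (UPoly.const 1)))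
  have hQ : Poly (fun y : List Bool => (List.range ((unpair (unpair (unpair y).2).2).2.length *
      BB (unpair (unpair (unpair y).2).2).2.length)).map
      (fun u => posc (unpair y).1.length
        (str (min (u / BB (unpair (unpair (unpair y).2).2).2.length)
        (unpair (unpair (unpair y).2).2).2.length)).length
          (u % BB (unpair (unpair (unpair y).2).2).2.length))) := by
    refine NPC.Poly.map (F := fun (y : List Bool) (u : ℕ) =>
      posc (unpair y).1.length (str (min (u / BB (unpair (unpair (unpair y).2).2).2.length)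
        (unpair (unpair (unpair y).2).2).2.length)).length
          (u % BB (unpair (unpair (unpair y).2).2).2.length)) (UPoly.mul hW hBU).range ?_
    have hB1 : Poly (fun p : List Bool × ℕ =>
        BB (unpair (unpair (unpair p.1).2).2).2.length) :=
      hBU.toPoly.comp (Poly.fst Poly.id)
    exact poly_posc (Poly.div (Poly.snd Poly.id) hB1) (hW.comp (Poly.fst Poly.id))
      (hU.comp (Poly.fst Poly.id)) (Poly.mod (Poly.snd Poly.id) hB1)
  have hH : Poly (fun p : List Bool × List Bool => pairBits
      (Nat.bits (numW (fun j => ((List.range (unpair (unpair (unpair p.1).2).2).2.length).map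
        (fun j => aL (unpair (unpair (unpair p.1).2).2).2.length
          (BB (unpair (unpair (unpair p.1).2).2).2.length)
          p.2 j)).getD j false) (unpair (unpair (unpair p.1).2).2).2))
      (pairBits [] (List.replicate ((unpair (unpair p.1).2).1.length +
        (unpair (unpair (unpair p.1).2).2).2.length + 2) true))) := by
    have h1 : Poly (fun p : List Bool × List Bool => (unpair (unpair (unpair p.1).2).2).2) :=
      hw.comp (Poly.fst Poly.id)
    have h2 : Poly (fun p : List Bool × List Bool => (unpair (unpair p.1).2).1) :=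
      ((Poly.fst poly_unpair).comp hz).comp (Poly.fst Poly.id)
    have h3 : Poly (fun p : List Bool × List Bool =>
        (List.range (unpair (unpair (unpair p.1).2).2).2.length).map
        (fun j => aL (unpair (unpair (unpair p.1).2).2).2.length
          (BB (unpair (unpair (unpair p.1).2).2).2.length)
          p.2 j)) := by
      refine NPC.Poly.map (F := fun (p : List Bool × List Bool) (j : ℕ) =>
        aL (unpair (unpair (unpair p.1).2).2).2.length
          (BB (unpair (unpair (unpair p.1).2).2).2.length) p.2 j)
        (hW.comp (Poly.fst Poly.id)).range ?_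
      exact poly_aL (hW.comp (Poly.fst (Poly.fst Poly.id)))
        (hBU.toPoly.comp (Poly.fst (Poly.fst Poly.id))) (Poly.snd (Poly.fst Poly.id))
        (Poly.snd Poly.id)
    refine poly_pairBits (Poly.natBits (poly_numW h1 h3))
      (poly_pairBits (NPC.Poly.const []) (Pool.Agent.H628R3.RO.p_replicate ?_ true))
    exact UPoly.add (UPoly.add (UPoly.length h2) (UPoly.length h1)) (UPoly.const 2)
  refine nullQP_intro (d := fun i w => DD (aS A) w / 2 ^ i)
    ⟨fun i w => div_nonneg (hD0 w) (by positivity), fun i w => ?_, fun i => ?_,
      fun i L hL => ?_⟩ (IsFP.tt (A := A) hQ hH) fun i r w => ?_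
  · beta_reduce
    have h1 := DD_avg (aS A) w
    have h2 : (DD (aS A) (w ++ [false]) / 2 ^ i + DD (aS A) (w ++ [true]) / 2 ^ i) / 2 =
        ((DD (aS A) (w ++ [false]) + DD (aS A) (w ++ [true])) / 2) / 2 ^ i := by ring
    rw [h2, h1]
    apply le_of_eq
    ring
  · beta_reduce
    have h1 : DD (aS A) [] = 1 := by
      unfold DD
      rw [List.length_nil, Finset.sum_range_one, TT_far (aS A) (n := 0) (w := []) (by simp)]
      norm_num
    rw [h1]
  · obtain ⟨n, hn, h1⟩ := h L hL (i + 4)
    refine ⟨2 ^ (n + 1) - 1, DD_large (fun i hi => ?_) (by omega) (by omega)⟩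
    have h2 : 2 * n ≤ 2 ^ n := by
      have h3 : n < 2 ^ n := Nat.lt_two_pow_self
      obtain ⟨n, rfl⟩ : ∃ n', n = n' + 1 := ⟨n - 1, by omega⟩
      have h4 : n < 2 ^ n := Nat.lt_two_pow_self
      rw [pow_succ]
      omega
    rw [← h1 i hi]
    unfold aS
    rw [length_str_block (by omega), off_block (by omega)]
  have e0 : (unpair (qpad 2 (W911.KM.inp i r w))).2 = W911.KM.inp i r w := by
    unfold qpad
    rw [unpair_pairBits]
  have e00 : (unpair (qpad 2 (W911.KM.inp i r w))).1.length =
      2 ^ (Nat.size (W911.KM.inp i r w).length) ^ 2 := by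
    unfold qpad
    rw [unpair_pairBits, List.length_replicate]
  have e1 : (unpair (W911.KM.inp i r w)).1.length = i := by
    unfold W911.KM.inp
    rw [unpair_pairBits, List.length_replicate]
  have e2 : (unpair (unpair (W911.KM.inp i r w)).2).2 = w := by
    unfold W911.KM.inp
    rw [unpair_pairBits, unpair_pairBits]
  have hlw : w.length ≤ (W911.KM.inp i r w).length := by
    unfold W911.KM.inp
    rw [length_pairBits, length_pairBits]
    omega
  have hUU : ∀ j < w.length, 2 ^ ((str j).length * (str j).length) ≤
      2 ^ (Nat.size (W911.KM.inp i r w).length) ^ 2 := by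
    intro j hj
    apply Nat.pow_le_pow_right (by norm_num)
    rw [pow_two]
    have h1 : (str j).length ≤ Nat.size (W911.KM.inp i r w).length := by
      have h2 := pow_len_le j
      have h3 : 2 ^ (str j).length ≤ (W911.KM.inp i r w).length := by omega
      exact (Nat.lt_size.2 h3).le
    exact Nat.mul_le_mul h1 h1
  simp only [e0, e00, e1, e2]
  have e3 : numW (fun j => ((List.range w.length).map (fun j => aL w.length (BB w.length)
      (((List.range (w.length * BB w.length)).map (fun u =>
        posc (2 ^ (Nat.size (W911.KM.inp i r w).length) ^ 2)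
          (str (min (u / BB w.length) w.length)).length (u % BB w.length))).map A) j)).getD
          j false) w = numW (aS A) w := by
    apply numW_congr
    intro j hj
    rw [List.getD_eq_getElem?_getD]
    simp only [List.getElem?_map, List.getElem?_range hj, Option.map_some, Option.getD_some]
    exact aL_eq A hj hUU
  rw [e3]
  have e4 : dy (pairBits (Nat.bits (numW (aS A) w))
      (pairBits [] (List.replicate (i + w.length + 2) true))) = DD (aS A) w / 2 ^ i := by
    unfold dy
    simp only [unpair_pairBits, valB_bits, valB_nil, List.length_replicate]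
    rw [DD_eq, Nat.cast_zero, sub_zero, div_div, ← pow_add]
    congr 2
    omega
  rw [e4, sub_self, abs_zero]
  positivity

end Pool.Agent.W900.PE
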