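import Pool.Agent.W900.PE.Comp
import Pool.Agent.W900.PM.Fin
import Pool.Agent.H622R2.Exp.G

/-!
# Changing infinitely many strings makes `ESPACE` small
-/

set_option autoImplicit false

namespace Pool.Agent.W900.PE

open Filter MeasureTheory Pool.Agent.NPC Pool.Agent.H620R2.Gauge
open Pool.Agent.W911.KM (NullP NullQP join length_str_block km_ae exact_ae nice_const)
open Pool.Agent.W911.AL (IsSigma)
open Pool.Agent.H622R2 (poly_of_polyTime)
open Pool.Agent.W900.CH (Close finite_diff)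
open Pool.Agent.W900.RB (close_mono)
open Pool.Agent.W900.PM (cut_congr cut_cut ae_finite finite_of_close ae_ph small_id fair_eq)
open Pool.Agent.H622R2.Exp (InSpace Lin good_Lin)
open Pool.Agent.H591R3.PHG (IsSig IsSigPoly)
open Pool.Agent.H628R3.RO (randomOracle)

theorem isSpace_of_pspace {A : Oracle} {L : Set (List Bool)} (h : IsPSPACE A L) :
    InSpace Lin A L := by
  obtain ⟨M, p, hM⟩ := h
  obtain ⟨r, hr, h1⟩ := good_Lin.comp _ (good_Lin.lin 0) p
  refine ⟨M, r, hr, fun x => ⟨fun s hs => ((hM x).1 s hs).trans ?_, (hM x).2⟩⟩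
  exact (eval_mono p (Nat.le_add_right _ _)).trans (h1 x.length)

theorem espace_task (M : SAlg) {q : Polynomial ℕ} (hq : q ∈ Lin) : ∃ c : ℕ,
    ∀ (A : Oracle) (L : Set (List Bool)),
      (∀ x, (∀ s, M.Reach A x s → s.length ≤ 2 ^ q.eval x.length) ∧
        ∃ s z, M.Reach A x s ∧ M.act (pairBits x s) = true :: z ∧ (x ∈ L ↔ z = [true])) →
      ∀ x, x ∈ L ↔ CC.Acc M (CC.cut (2 ^ (c * (x.length + 1))) A) x := by
  obtain ⟨q', hq'⟩ := (poly_of_polyTime M.act_poly).sz_le
  obtain ⟨r, ⟨c, rfl⟩, hr⟩ := good_Lin.comp q hq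
    (q'.comp (Polynomial.C 8 * Polynomial.X + Polynomial.C 5))
  refine ⟨c, fun A L hM x => ?_⟩
  have hb : ∀ s : List Bool, s.length ≤ 2 ^ q.eval x.length →
      (M.act (pairBits x s)).length ≤ 2 ^ (c * (x.length + 1)) := by
    intro s hs
    have h0 := hr x.length
    have h00 : (Polynomial.C c * (Polynomial.X + 1)).eval x.length = c * (x.length + 1) := by
      simp
    rw [h00] at h0
    refine le_trans ?_ h0
    have h1 := length_lt_sz (M.act (pairBits x s))
    refine h1.le.trans ((hq' _).trans ?_)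
    rw [Polynomial.eval_comp]
    apply eval_mono
    have h2 := sz_listBool_le (pairBits x s)
    rw [length_pairBits] at h2
    simp only [Polynomial.eval_add, Polynomial.eval_mul, Polynomial.eval_C, Polynomial.eval_X]
    omega
  obtain ⟨hM1, s, z, hs, hz, hL⟩ := hM x
  have hcong : ∀ s, M.Reach (CC.cut (2 ^ (c * (x.length + 1))) A) x s ↔ M.Reach A x s := by
    refine CC.reach_congr (fun s => s.length ≤ 2 ^ q.eval x.length) hM1 ?_
    intro s q h1 h2
    have h3 := hb s h1
    rw [h2, List.length_cons] at h3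
    unfold CC.cut
    rw [if_pos (by omega)]
  constructor
  · intro hx
    refine ⟨s, (hcong s).2 hs, ?_⟩
    rw [hz, hL.1 hx]
  · rintro ⟨t, ht, ht2⟩
    have hst := CC.reach_unique hs ((hcong t).1 ht) ⟨_, hz⟩ ⟨_, ht2⟩
    rw [hst, ht2] at hz
    simp only [List.cons.injEq, true_and] at hz
    exact hL.2 hz.symm

theorem exists_tasks : ∃ u : ℕ → Option (SAlg × ℕ), Function.Surjective u := by
  have h2 := CC.salg_countable
  exact exists_surjective_nat _

open Classical in
/-- **Arbitrarily few changes make `ESPACE` small.** -/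
theorem exists_close_null {g : ℕ → ℝ} (hg : Tendsto g atTop atTop) (O : Oracle) :
    ∃ A, Close g O A ∧ NullQP A 2 {L | IsPSPACE A L ∨ InSpace Lin A L} := by
  obtain ⟨u, hu⟩ := exists_tasks
  -- the lengths
  have hev : ∀ j : ℕ, ∀ᶠ n : ℕ in atTop, (∀ m ≥ n, (j : ℝ) + 1 ≤ g m) ∧
      ∀ M c, u (Nat.unpair j).1 = some (M, c) → 2 ^ (c * (n + 1)) ≤ 2 ^ (n * n) := by
    intro j
    have h1 : ∀ᶠ n : ℕ in atTop, ∀ m ≥ n, (j : ℝ) + 1 ≤ g m := by
      obtain ⟨n₁, hn₁⟩ := eventually_atTop.1 (hg.eventually_ge_atTop ((j : ℝ) + 1))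
      filter_upwards [eventually_ge_atTop n₁] with n hn m hm
      exact hn₁ m (hn.trans hm)
    have h2 : ∀ᶠ n : ℕ in atTop, ∀ M c, u (Nat.unpair j).1 = some (M, c) →
        2 ^ (c * (n + 1)) ≤ 2 ^ (n * n) := by
      rcases hj : u (Nat.unpair j).1 with _ | ⟨M, c⟩
      · exact Filter.Eventually.of_forall fun n M c h => by simp at h
      · filter_upwards [eventually_ge_atTop (2 * c + 1)] with n hn M' c' h
        simp only [Option.some.injEq, Prod.mk.injEq] at h
        rw [← h.2]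
        apply Nat.pow_le_pow_right (by norm_num)
        nlinarith
    exact h1.and h2
  obtain ⟨nn, hmono, hP⟩ := Filter.extraction_forall_of_eventually hev
  set T : ℕ → ℕ → Oracle → Bool := fun n i A => decide (∃ (j : ℕ) (M : SAlg)
    (c : ℕ), n = nn j ∧ u (Nat.unpair j).1 = some (M, c) ∧
      CC.Acc M (CC.cut (2 ^ (c * (n + 1))) (CC.cut (2 ^ (n * n)) A)) (str (2 ^ n - 1 + i))) with hT
  obtain ⟨A, hA, hsyn⟩ := exists_orc (fun n => ∃ j, n = nn j) T (by
    intro n i A A' h
    rw [hT]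
    dsimp only
    rw [cut_congr h]) O
  refine ⟨A, ?_, null_of_syn A _ ?_⟩
  · -- few changes
    unfold Close
    filter_upwards [eventually_gt_atTop (nn 0)] with N hN
    have hex : ∃ j, N ≤ nn j := ⟨N, hmono.le_apply⟩
    have h1 : N ≤ nn (Nat.find hex) := Nat.find_spec hex
    have hpos : 0 < Nat.find hex := by
      rw [Nat.pos_iff_ne_zero]
      intro h
      rw [h] at h1
      omega
    have h2 : nn (Nat.find hex - 1) < N := by
      have := Nat.find_min hex (m := Nat.find hex - 1) (by omega)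
      omega
    have h3 : CH.dist O A N ≤ Nat.find hex := by
      refine dist_orc (Λ := fun n => ∃ j, n = nn j) (T := T) (fun n => Iff.rfl) hmono ?_ h1
      intro z hz
      rw [hA z, if_neg hz]
    have h4 := (hP (Nat.find hex - 1)).1 N h2.le
    have h5 : ((Nat.find hex - 1 : ℕ) : ℝ) + 1 = (Nat.find hex : ℝ) := by
      have h6 : Nat.find hex - 1 + 1 = Nat.find hex := Nat.sub_add_cancel hpos
      exact_mod_cast h6
    rw [h5] at h4
    refine le_trans ?_ h4
    exact_mod_cast h3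
  · -- the predictions
    intro L hL N
    have hL' : InSpace Lin A L := hL.elim isSpace_of_pspace id
    obtain ⟨M, q, hq, hM⟩ := hL'
    obtain ⟨c, hc⟩ := espace_task M hq
    obtain ⟨e, he⟩ := hu (some (M, c))
    set j := Nat.pair e (N + 3) with hj
    have hj1 : (Nat.unpair j).1 = e := by rw [hj, Nat.unpair_pair]
    have hj2 : N + 3 ≤ j := Nat.right_le_pair _ _
    have hj3 : j ≤ nn j := hmono.le_apply
    refine ⟨nn j, by omega, fun i hi => ?_⟩
    rw [hsyn (nn j) ⟨j, rfl⟩ i hi]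
    have h2 : 2 * nn j ≤ 2 ^ nn j := by
      obtain ⟨n, hn⟩ : ∃ n', nn j = n' + 1 := ⟨nn j - 1, by omega⟩
      have h4 : n < 2 ^ n := Nat.lt_two_pow_self
      rw [hn, pow_succ]
      omega
    have hlen : (str (2 ^ nn j - 1 + i)).length = nn j := length_str_block (by omega)
    have h3 := hc A L hM (str (2 ^ nn j - 1 + i))
    rw [hlen] at h3
    rw [h3, hT]
    dsimp only
    rw [decide_eq_true_iff]
    have hu1 : u (Nat.unpair j).1 = some (M, c) := by rw [hj1, he]
    have hbn := (hP j).2 M c hu1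
    constructor
    · rintro ⟨j', M', b', h4, h5, h6⟩
      have h7 := hmono.injective h4
      subst h7
      rw [hu1] at h5
      simp only [Option.some.injEq, Prod.mk.injEq] at h5
      obtain ⟨rfl, rfl⟩ := h5
      rwa [cut_cut hbn] at h6
    · intro h6
      refine ⟨j, M, c, rfl, hu1, ?_⟩
      rwa [cut_cut hbn]

theorem exact_qp : ∀ᵐ A ∂randomOracle, ∀ k j : ℕ,
    (∃ (B : Set (List Bool)) (c : ℕ), IsSigma A (fun _ => j) B ∧
      NullQP (join A B) c {L | IsSigma A (fun _ => k) L}) ↔ k ≤ j := by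
  have h1 := km_ae
  have h2 := exact_ae
  rw [fair_eq] at h1 h2
  filter_upwards [h1, h2] with A hA hA2
  intro k j
  constructor
  · rintro ⟨B, c, hB, hn⟩
    by_contra hlt
    obtain ⟨κ, rfl⟩ : ∃ κ, k = κ + 1 := ⟨k - 1, by omega⟩
    obtain ⟨L, hL, h⟩ := hA κ c
    refine h B ?_ _ hL hn
    exact IsSigma.mono (nice_const j) (Filter.Eventually.of_forall fun _ => by omega) hB
  · intro hkj
    obtain ⟨B, hB, h⟩ := (hA2 k j).2 hkj
    exact ⟨B, 0, hB, h.nullQP 0⟩

theorem ae_main : ∀ᵐ O ∂randomOracle,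
    (∀ g : ℕ → ℝ, ¬ Tendsto g atTop atTop → ∀ A, Close g O A → ∀ k j : ℕ,
      (∃ (B : Set (List Bool)) (c : ℕ), IsSigma A (fun _ => j) B ∧
        NullQP (join A B) c {L | IsSigma A (fun _ => k) L}) ↔ k ≤ j) ∧
    ∀ g : ℕ → ℝ, Tendsto g atTop atTop → ∃ A, Close g O A ∧
      NullQP A 2 {L | IsPSPACE A L ∨ InSpace Lin A L} ∧
      (∀ k, ∃ L, IsSig A (k + 1) L ∧ ¬ IsSigPoly A k L) ∧ ∃ f, OC.Hard A f := by
  filter_upwards [ae_finite exact_qp, ae_ph, OC.ae_est] with O h2 h3 h4
  refine ⟨fun g hg A hA => h2 A (finite_of_close hg hA), fun g hg => ?_⟩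
  have hmin : Tendsto (fun n : ℕ => min (g n) (n : ℝ)) atTop atTop :=
    tendsto_atTop.2 fun K => by
      filter_upwards [hg.eventually_ge_atTop K,
        (tendsto_natCast_atTop_atTop (R := ℝ)).eventually_ge_atTop K] with n h5 h6
      exact le_min h5 h6
  obtain ⟨A, hA, hnull⟩ := exists_close_null hmin O
  have hA1 : Close (fun n => (n : ℝ)) O A := close_mono (fun n => min_le_right _ _) hA
  refine ⟨A, close_mono (fun n => min_le_left _ _) hA, hnull, h3 A hA1, OW.ff A,
    OC.hard_of_close (fun ε hε => ?_) h4 hA1⟩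
  filter_upwards [small_id ε hε] with n hn
  exact ⟨n, le_refl _, hn⟩

end Pool.Agent.W900.PE
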